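import Pool.Agent.L7h25.TP.Stm

/-!
# Project TP: Hensel's lemma over the Witt vectors (t_HEN)
-/

set_option autoImplicit false

open Polynomial

namespace Pool.Agent.L7h97.TP

open Pool.Agent.L7h25.TP

section

variable {N : Type} [Field N] [CharP N 2]

theorem rs_apply (x : WN N) : rs N x = x.coeff 0 := rfl

theorem unit_of_rs [IsAlgClosed N] (x : WN N) (hx : rs N x ≠ 0) : IsUnit x :=
  WittVector.isUnit_of_coeff_zero_ne_zero x hx

theorem mem_span_iff [IsAlgClosed N] (x : WN N) :
    x ∈ Ideal.span {((2 : ℕ) : WN N)} ↔ rs N x = 0 :=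
  WittVector.mem_span_p_iff_coeff_zero_eq_zero x

theorem prod_derivative {R : Type*} [CommRing R] [IsDomain R] {n : ℕ} (y : Fin n → R) (c : R)
    (l : Fin n) :
    (derivative (C c * ∏ l, (X - C (y l)))).eval (y l) =
      c * ∏ j ∈ Finset.univ.erase l, (y l - y j) := by
  classical
  have h := Lagrange.eval_nodal_derivative_eval_node_eq (s := Finset.univ) (v := y)
    (Finset.mem_univ l)
  rw [derivative_C_mul, eval_mul, eval_C]
  unfold Lagrange.nodal at h
  rw [h, eval_prod]
  simp

end

theorem t_HEN : S_HEN := by
  classical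
  intro N _ _ _ n P x hP hu hx h0
  set c : WN N := P.leadingCoeff with hc
  obtain ⟨u, hu'⟩ := hu
  have hc0 : rs N c ≠ 0 := by
    intro h
    have h1 : IsUnit (rs N c) := IsUnit.map (rs N) (show IsUnit c from ⟨u, hu'⟩)
    rw [h] at h1
    exact not_isUnit_zero h1
  -- the reduction
  have hPd : (P.map (rs N)).natDegree = n := by
    rw [← hP]
    exact natDegree_map_of_leadingCoeff_ne_zero _ hc0
  have hPl : (P.map (rs N)).leadingCoeff = rs N c := by
    unfold leadingCoeff
    rw [hPd, coeff_map, ← hP]
    rfl
  have hred : P.map (rs N) = C (rs N c) * ∏ l, (X - C (x l)) := by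
    have h1 : (P.map (rs N) - C (rs N c) * ∏ l, (X - C (x l))) = 0 := by
      apply eq_zero_of_degree_lt_of_eval_index_eq_zero (s := Finset.univ) (v := x) hx.injOn
      · rw [Finset.card_univ, Fintype.card_fin]
        rcases Nat.eq_zero_or_pos n with hn | hn
        · subst hn
          simp only [Finset.univ_eq_empty, Finset.prod_empty, mul_one]
          have h2 : P.map (rs N) = C (rs N c) := by
            rw [eq_C_of_natDegree_eq_zero hPd]
            congr 1
            have h3 := hPl
            unfold leadingCoeff at h3
            rw [hPd] at h3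
            exact h3
          rw [h2, sub_self, degree_zero]
          exact WithBot.bot_lt_coe 0
        · have hm : (∏ l, (X - C (x l))).Monic := monic_prod_of_monic _ _ fun l _ => monic_X_sub_C _
          have hmd : (∏ l, (X - C (x l))).natDegree = n := by
            rw [natDegree_prod_of_monic _ _ fun j _ => monic_X_sub_C _]
            simp
          have hd1 : (C (rs N c) * ∏ l, (X - C (x l))).natDegree = n := by
            rw [natDegree_C_mul hc0, hmd]
          have hd2 : (P.map (rs N)).degree = (n : ℕ) := by
            rw [degree_eq_natDegree, hPd]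
            intro h
            rw [h, leadingCoeff_zero] at hPl
            exact hc0 hPl.symm
          have h4 := degree_sub_lt_left (p := P.map (rs N)) (q := C (rs N c) * ∏ l, (X - C (x l))) (by
            rw [degree_eq_natDegree (mul_ne_zero (C_ne_zero.2 hc0) hm.ne_zero), hd1, hd2]) (by
            intro h
            rw [h, leadingCoeff_zero] at hPl
            exact hc0 hPl.symm) (by
            rw [hPl, leadingCoeff_mul, leadingCoeff_C, hm.leadingCoeff, mul_one])
          rw [hd2] at h4
          exact h4
      · intro l _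
        rw [eval_sub, h0 l, eval_mul, eval_prod, Finset.prod_eq_zero (Finset.mem_univ l), mul_zero,
          sub_self]
        simp
    exact sub_eq_zero.1 h1
  have hder : ∀ l, (derivative (P.map (rs N))).eval (x l) ≠ 0 := by
    intro l
    rw [hred, prod_derivative]
    refine mul_ne_zero hc0 (Finset.prod_ne_zero_iff.2 fun j hj => ?_)
    rw [sub_ne_zero]
    intro h
    exact (Finset.ne_of_mem_erase hj) (hx h).symm
  -- the roots
  set I : Ideal (WN N) := Ideal.span {((2 : ℕ) : WN N)} with hI
  have hroot : ∀ l, ∃ y : WN N, rs N y = x l ∧ P.eval y = 0 := by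
    intro l
    set f : (WN N)[X] := C (↑(u⁻¹) : WN N) * P with hf
    have hfm : f.Monic := by
      unfold Monic
      rw [hf, leadingCoeff_mul, leadingCoeff_C, ← hc, ← hu']
      simp
    have hrsu : rs N (↑(u⁻¹) : WN N) ≠ 0 := by
      intro h
      have h1 : IsUnit (rs N (↑(u⁻¹) : WN N)) := (Units.isUnit u⁻¹).map (rs N)
      rw [h] at h1
      exact not_isUnit_zero h1
    set a : WN N := WittVector.teichmuller 2 (x l) with ha
    have hra : rs N a = x l := by
      rw [rs_apply, ha]
      exact WittVector.teichmuller_coeff_zero 2 (x l)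
    have hev : ∀ Q : (WN N)[X], rs N (Q.eval a) = (Q.map (rs N)).eval (x l) := by
      intro Q
      rw [← hra, eval_map, eval₂_at_apply]
    have h1 : f.eval a ∈ I := by
      rw [hI, mem_span_iff, hev, hf, Polynomial.map_mul, eval_mul, h0 l, mul_zero]
    have h2 : IsUnit (Ideal.Quotient.mk I (f.derivative.eval a)) := by
      apply IsUnit.map
      apply unit_of_rs
      rw [hev, ← derivative_map, hf, Polynomial.map_mul, map_C, derivative_C_mul, eval_mul, eval_C]
      exact mul_ne_zero hrsu (hder l)
    obtain ⟨y, hy1, hy2⟩ := HenselianRing.is_henselian (I := I) f hfm a h1 h2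
    refine ⟨y, ?_, ?_⟩
    · rw [hI, mem_span_iff, map_sub, sub_eq_zero] at hy2
      rw [hy2, hra]
    · have h3 : f.eval y = 0 := hy1
      rw [hf, eval_mul, eval_C] at h3
      rcases mul_eq_zero.1 h3 with h4 | h4
      · exact absurd h4 (Units.ne_zero _)
      · exact h4
  choose y hy1 hy2 using hroot
  have hyinj : Function.Injective y := by
    intro a b hab
    apply hx
    rw [← hy1 a, ← hy1 b, hab]
  have hc00 : c ≠ 0 := by
    rw [← hu']
    exact Units.ne_zero _
  have hfac : P = C c * ∏ l, (X - C (y l)) := by
    have h1 : (P - C c * ∏ l, (X - C (y l))) = 0 := by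
      apply eq_zero_of_degree_lt_of_eval_index_eq_zero (s := Finset.univ) (v := y) hyinj.injOn
      · rw [Finset.card_univ, Fintype.card_fin]
        have hm : (∏ l, (X - C (y l))).Monic := monic_prod_of_monic _ _ fun l _ => monic_X_sub_C _
        have hmd : (∏ l, (X - C (y l))).natDegree = n := by
          rw [natDegree_prod_of_monic _ _ fun j _ => monic_X_sub_C _]
          simp
        have hd1 : (C c * ∏ l, (X - C (y l))).natDegree = n := by
          rw [natDegree_C_mul hc00, hmd]
        have hP0 : P ≠ 0 := by
          intro h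
          rw [hc, h, leadingCoeff_zero] at hc00
          exact hc00 rfl
        have hd2 : P.degree = (n : ℕ) := by
          rw [degree_eq_natDegree hP0, hP]
        have h4 := degree_sub_lt_left (p := P) (q := C c * ∏ l, (X - C (y l))) (by
          rw [degree_eq_natDegree (mul_ne_zero (C_ne_zero.2 hc00) hm.ne_zero), hd1, hd2]) hP0 (by
          rw [leadingCoeff_mul, leadingCoeff_C, hm.leadingCoeff, mul_one])
        rw [hd2] at h4
        exact h4
      · intro l _
        rw [eval_sub, hy2 l, eval_mul, eval_prod, Finset.prod_eq_zero (Finset.mem_univ l), mul_zero,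
          sub_self]
        simp
    exact sub_eq_zero.1 h1
  refine ⟨y, hy1, hy2, hfac, fun l => ?_, fun z hz => ?_⟩
  · conv_lhs => rw [hfac]
    rw [prod_derivative]
  · rw [hfac, eval_mul, eval_C, eval_prod] at hz
    rcases mul_eq_zero.1 hz with h | h
    · exact absurd h hc00
    · obtain ⟨l, _, hl⟩ := Finset.prod_eq_zero_iff.1 h
      refine ⟨l, ?_⟩
      rw [eval_sub, eval_X, eval_C] at hl
      exact sub_eq_zero.1 hl

end Pool.Agent.L7h97.TP
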