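import Pool.Agent.L7h25.TP.Stm

/-!
# Project TP: Lagrange (t_LAG) and the norm (t_NRM)
-/

set_option autoImplicit false

open Polynomial

namespace Pool.Agent.L7h97.TP

open Pool.Agent.L7h25.TP

theorem t_LAG : S_LAG := by
  classical
  intro R _ _ n y v Q hv hQ
  have hne : ∀ l, ∏ j ∈ Finset.univ.erase l, (y l - y j) ≠ 0 := by
    intro l h
    have := hv l
    rw [h, mul_zero] at this
    exact zero_ne_one this
  have hinj : Function.Injective y := by
    intro a b hab
    by_contra hne'
    apply hne a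
    apply Finset.prod_eq_zero (Finset.mem_erase.2 ⟨Ne.symm hne', Finset.mem_univ b⟩)
    rw [hab, sub_self]
  set N : Fin n → R[X] := fun l => ∏ j ∈ Finset.univ.erase l, (X - C (y j)) with hN
  have hNm : ∀ l, (N l).Monic := fun l => monic_prod_of_monic _ _ fun j _ => monic_X_sub_C _
  have hNd : ∀ l, (N l).natDegree = n - 1 := by
    intro l
    rw [hN]
    simp only
    rw [natDegree_prod_of_monic _ _ fun j _ => monic_X_sub_C _]
    simp [Finset.card_erase_of_mem]
  set P : R[X] := ∑ l, C (Q.eval (y l) * v l) * N l - Q with hP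
  have hPd : P.natDegree < n := by
    have h1 : (∑ l, C (Q.eval (y l) * v l) * N l).natDegree ≤ n - 1 := by
      apply natDegree_sum_le_of_forall_le
      intro l _
      exact (natDegree_C_mul_le _ _).trans (hNd l).le
    have h2 : P.natDegree ≤ n - 1 := (natDegree_sub_le _ _).trans (max_le h1 (by omega))
    omega
  have hP0 : P = 0 := by
    apply eq_zero_of_natDegree_lt_card_of_eval_eq_zero P hinj
    · intro i
      rw [hP, eval_sub, eval_finsetSum, Finset.sum_eq_single i]
      · rw [eval_mul, eval_C, hN]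
        simp only
        rw [eval_prod]
        simp only [eval_sub, eval_X, eval_C]
        rw [mul_assoc, hv i, mul_one, sub_self]
      · intro l _ hl
        rw [eval_mul, hN]
        simp only
        rw [eval_prod, Finset.prod_eq_zero (Finset.mem_erase.2 ⟨Ne.symm hl, Finset.mem_univ i⟩),
          mul_zero]
        simp
      · intro h
        exact absurd (Finset.mem_univ i) h
    · rw [Fintype.card_fin]
      exact hPd
  have h1 := congrArg (fun p : R[X] => p.coeff (n - 1)) hP0
  simp only [hP, coeff_sub, finsetSum_coeff, coeff_C_mul, coeff_zero] at h1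
  rw [coeff_eq_zero_of_natDegree_lt (p := Q) (by omega), sub_zero] at h1
  rw [← h1]
  refine Finset.sum_congr rfl fun l _ => ?_
  have h2 : (N l).coeff (n - 1) = 1 := by
    rw [← hNd l]
    exact hNm l
  rw [h2, mul_one]

theorem t_NRM : S_NRM := by
  classical
  intro R _ _ _ n ψ h1 h2
  have key : ∀ s : Finset (Fin n), ∃ E : R, 2 * E = (∑ l ∈ s, ψ l) ^ 2 - ∑ l ∈ s, ψ l ^ 2 ∧
      ∃ z, (∏ l ∈ s, (1 + 2 * ψ l)) = 1 + 2 * ∑ l ∈ s, ψ l + 4 * E + 8 * z := by
    intro s
    induction s using Finset.induction_on with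
    | empty => exact ⟨0, by simp, 0, by simp⟩
    | insert a s ha ih =>
      obtain ⟨E, hE, z, hz⟩ := ih
      refine ⟨E + ψ a * ∑ l ∈ s, ψ l, ?_, (1 + 2 * ψ a) * z + ψ a * E, ?_⟩
      · rw [Finset.sum_insert ha, Finset.sum_insert ha]
        linear_combination hE
      · rw [Finset.prod_insert ha, Finset.sum_insert ha, hz]
        ring
  obtain ⟨E, hE, z, hz⟩ := key Finset.univ
  obtain ⟨a, ha⟩ := h1
  obtain ⟨b, hb⟩ := h2
  have hE2 : E = 8 * a ^ 2 - 2 * b := by
    have h3 : (2 : R) * E = 2 * (8 * a ^ 2 - 2 * b) := by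
      rw [hE, ha, hb]
      ring
    exact mul_left_cancel₀ two_ne_zero h3
  refine ⟨a + 4 * a ^ 2 - b + z, ?_⟩
  rw [hz, ha, hE2]
  ring

end Pool.Agent.L7h97.TP
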