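import Pool.Agent.L7h25.TP.Stm
import Pool.Agent.L7h97.TP.Hen

/-!
# Project TP: the sign of a permutation from the discriminant modulo 8 (t_SGN)
-/

set_option autoImplicit false

open Polynomial

namespace Pool.Agent.L7h97.TP

open Pool.Agent.L7h25.TP

/-- The product of all differences and the Vandermonde determinant. -/
theorem disc_vdm {R : Type*} [CommRing R] {n : ℕ} (y : Fin n → R) :
    ∏ l, ∏ j ∈ Finset.univ.erase l, (y l - y j) =
      (-1) ^ (n * (n - 1) / 2) * (Matrix.vandermonde y).det ^ 2 := by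
  classical
  rw [Matrix.det_vandermonde]
  set δ : R := ∏ i : Fin n, ∏ j ∈ Finset.Ioi i, (y j - y i) with hδ
  have h1 : ∀ l : Fin n, ∏ j ∈ Finset.univ.erase l, (y l - y j) =
      (∏ j ∈ Finset.Ioi l, (y l - y j)) * ∏ j ∈ Finset.Iio l, (y l - y j) := by
    intro l
    rw [← Finset.prod_union]
    · refine Finset.prod_congr ?_ fun _ _ => rfl
      ext j
      simp only [Finset.mem_erase, Finset.mem_univ, and_true, Finset.mem_union, Finset.mem_Ioi,
        Finset.mem_Iio]
      exact ⟨fun h => (lt_or_gt_of_ne h).symm, fun h => h.elim ne_of_gt ne_of_lt⟩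
    · rw [Finset.disjoint_left]
      intro j hj hj'
      rw [Finset.mem_Ioi] at hj
      rw [Finset.mem_Iio] at hj'
      exact lt_asymm hj hj'
  rw [Finset.prod_congr rfl fun l _ => h1 l, Finset.prod_mul_distrib]
  have h2 : ∏ l : Fin n, ∏ j ∈ Finset.Iio l, (y l - y j) = δ := by
    rw [hδ]
    rw [Finset.prod_sigma', Finset.prod_sigma']
    refine Finset.prod_bij' (fun p _ => ⟨p.2, p.1⟩) (fun p _ => ⟨p.2, p.1⟩) ?_ ?_ ?_ ?_ ?_
    · rintro ⟨a, b⟩ h
      simp only [Finset.mem_sigma, Finset.mem_univ, true_and, Finset.mem_Iio, Finset.mem_Ioi] at h ⊢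
      exact h
    · rintro ⟨a, b⟩ h
      simp only [Finset.mem_sigma, Finset.mem_univ, true_and, Finset.mem_Iio, Finset.mem_Ioi] at h ⊢
      exact h
    · rintro ⟨a, b⟩ _
      rfl
    · rintro ⟨a, b⟩ _
      rfl
    · rintro ⟨a, b⟩ _
      rfl
  have h3 : ∏ l : Fin n, ∏ j ∈ Finset.Ioi l, (y l - y j) = (-1) ^ (n * (n - 1) / 2) * δ := by
    have h4 : ∀ l : Fin n, ∏ j ∈ Finset.Ioi l, (y l - y j) =
        (-1) ^ (n - 1 - (l : ℕ)) * ∏ j ∈ Finset.Ioi l, (y j - y l) := by
      intro l
      rw [← Fin.card_Ioi l, ← Finset.prod_const, ← Finset.prod_mul_distrib]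
      refine Finset.prod_congr rfl fun j _ => ?_
      ring
    rw [Finset.prod_congr rfl fun l _ => h4 l, Finset.prod_mul_distrib, Finset.prod_pow_eq_pow_sum]
    congr 2
    rw [Finset.sum_fin_eq_sum_range]
    have h5 : ∑ i ∈ Finset.range n, (if h : i < n then n - 1 - ((⟨i, h⟩ : Fin n) : ℕ) else 0) =
        ∑ i ∈ Finset.range n, (n - 1 - i) := by
      refine Finset.sum_congr rfl fun i hi => ?_
      rw [dif_pos (Finset.mem_range.1 hi)]
    rw [h5, Finset.sum_range_reflect (fun i => i) n, Finset.sum_range_id]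
  rw [h2, h3]
  ring

section

variable {N : Type} [Field N] [CharP N 2] [IsAlgClosed N]

theorem two_dvd_iff (x : WN N) : (2 : WN N) ∣ x ↔ rs N x = 0 := by
  rw [← mem_span_iff, Ideal.mem_span_singleton]
  norm_num

theorem rs_two : rs N (2 : WN N) = 0 := by
  rw [← two_dvd_iff]

theorem two_ne : (2 : WN N) ≠ 0 := by
  have h := WittVector.p_nonzero 2 N
  exact_mod_cast h

theorem key_lift (A w z : WN N) (hw : IsUnit w) (h : A ^ 2 = w ^ 2 + 8 * z) :
    ∃ t, A = w + 4 * t ∨ A = -w + 4 * t := by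
  have h2 := two_ne (N := N)
  have hw0 : rs N w ≠ 0 := by
    intro h
    have h1 : IsUnit (rs N w) := hw.map (rs N)
    rw [h] at h1
    exact not_isUnit_zero h1
  have hp : (A - w) * (A + w) = 8 * z := by linear_combination h
  -- both factors are even
  have ha : (2 : WN N) ∣ A - w := by
    rw [two_dvd_iff]
    have h1 := congrArg (rs N) hp
    rw [map_mul, map_mul] at h1
    have h8 : rs N (8 : WN N) = 0 := by
      rw [← two_dvd_iff]
      exact ⟨4, by norm_num⟩
    rw [h8, zero_mul] at h1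
    have h3 : rs N (A + w) = rs N (A - w) := by
      have h4 : A + w = (A - w) + 2 * w := by ring
      rw [h4, map_add, map_mul, rs_two, zero_mul, add_zero]
    rw [h3] at h1
    exact mul_self_eq_zero.1 h1
  obtain ⟨a, ha⟩ := ha
  have hb : A + w = 2 * (a + w) := by linear_combination ha
  rw [ha, hb] at hp
  have hp2 : a * (a + w) = 2 * z := by
    have h3 : (4 : WN N) * (a * (a + w)) = 4 * (2 * z) := by linear_combination hp
    have h4 : (4 : WN N) ≠ 0 := by
      have : (4 : WN N) = 2 * 2 := by norm_num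
      rw [this]
      exact mul_ne_zero h2 h2
    exact mul_left_cancel₀ h4 h3
  have h3 := congrArg (rs N) hp2
  rw [map_mul, map_mul, rs_two, zero_mul] at h3
  rcases mul_eq_zero.1 h3 with h4 | h4
  · rw [← two_dvd_iff] at h4
    obtain ⟨t, ht⟩ := h4
    refine ⟨t, Or.inl ?_⟩
    rw [ht] at ha
    linear_combination ha
  · rw [← two_dvd_iff] at h4
    obtain ⟨t, ht⟩ := h4
    refine ⟨t, Or.inr ?_⟩
    rw [ht] at hb
    linear_combination hb

theorem not_four (w t : WN N) (hw : IsUnit w) : 2 * w ≠ 4 * t := by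
  intro h
  have h2 := two_ne (N := N)
  have h3 : w = 2 * t := by
    have h4 : (2 : WN N) * w = 2 * (2 * t) := by linear_combination h
    exact mul_left_cancel₀ h2 h4
  have h4 : rs N w = 0 := by rw [← two_dvd_iff]; exact ⟨t, h3⟩
  have h1 : IsUnit (rs N w) := hw.map (rs N)
  rw [h4] at h1
  exact not_isUnit_zero h1

end

theorem t_SGN : S_SGN := by
  classical
  intro N _ _ _ n y σ τ c w z v hinj hy hc hw huc huw hdisc
  set S : WN N →+* WN N := WittVector.map (σ : N →+* N) with hS
  set δ : WN N := (Matrix.vandermonde y).det with hδ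
  have hSδ : S δ = ((Equiv.Perm.sign τ : ℤˣ) : ℤ) * δ := by
    rw [hδ, RingHom.map_det]
    have h1 : S.mapMatrix (Matrix.vandermonde y) =
        (Matrix.vandermonde y).submatrix τ id := by
      ext i j
      simp only [RingHom.mapMatrix_apply, Matrix.map_apply, Matrix.vandermonde_apply, map_pow,
        Matrix.submatrix_apply, id]
      rw [hS, hy i]
    rw [h1, Matrix.det_permute]
  -- the square
  obtain ⟨z', hz'⟩ : ∃ z', (c * δ) ^ 2 = w ^ 2 + 8 * z' := by
    rw [disc_vdm, ← hδ] at hdisc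
    have h1 : ((-1 : WN N) ^ (n * (n - 1) / 2)) ^ 2 = 1 := by
      rw [← pow_mul, mul_comm, pow_mul]
      norm_num
    refine ⟨(-1) ^ (n * (n - 1) / 2) * z, ?_⟩
    linear_combination (-1) ^ (n * (n - 1) / 2) * hdisc - (c ^ 2 * δ ^ 2 - w ^ 2) * h1
  obtain ⟨t, ht⟩ := key_lift _ _ _ huw hz'
  have hsv : ∀ u : ℤˣ, (u : ℤ) = 1 ∨ (u : ℤ) = -1 := fun u => by
    rcases Int.units_eq_one_or u with h | h <;> simp [h]
  -- one relation
  have hfin : ∀ ε : WN N, (ε = 1 ∨ ε = -1) → c * δ = ε * w + 4 * t →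
      Equiv.Perm.sign τ = v := by
    intro ε hε h
    have h1 := congrArg S h
    have hSε : S ε = ε := by
      rcases hε with h | h <;> simp [h]
    have hS4 : S (4 : WN N) = 4 := map_ofNat S 4
    rw [map_mul, hSδ, hc, map_add, map_mul, map_mul, hSε, hw, hS4, zsmul_eq_mul] at h1
    by_contra hne
    have hne' : ((Equiv.Perm.sign τ : ℤˣ) : ℤ) ≠ (v : ℤ) := fun h => hne (Units.ext h)
    -- c * (sign δ) = ε v w + 4 S t
    have h2 : ∃ s : WN N, 2 * w = 4 * s := by
      rcases hsv (Equiv.Perm.sign τ) with ha | ha <;> rcases hsv v with hb | hb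
      · exact absurd (ha.trans hb.symm) hne'
      · rw [ha, hb] at h1
        push_cast at h1
        rcases hε with he | he
        · rw [he] at h h1
          exact ⟨S t - t, by linear_combination h1 - h⟩
        · rw [he] at h h1
          exact ⟨t - S t, by linear_combination h - h1⟩
      · rw [ha, hb] at h1
        push_cast at h1
        rcases hε with he | he
        · rw [he] at h h1
          exact ⟨-(S t + t), by linear_combination -h - h1⟩
        · rw [he] at h h1
          exact ⟨S t + t, by linear_combination h + h1⟩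
      · exact absurd (ha.trans hb.symm) hne'
    obtain ⟨s, hs⟩ := h2
    exact not_four w s huw hs
  rcases ht with ht | ht
  · exact hfin 1 (Or.inl rfl) (by rw [ht, one_mul])
  · exact hfin (-1) (Or.inr rfl) (by rw [ht]; ring)

end Pool.Agent.L7h97.TP
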