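import Pool.Agent.L7h25.TP.StmB

/-!
# Project TP, part B: Lagrange (t_LAGB, t_LAGC) and the norm (t_NRMB)
-/

set_option autoImplicit false

open Polynomial

namespace Pool.Agent.L7h97.TP

open Pool.Agent.L7h25.TP

/-- interpolation -/
theorem interp {R : Type} [CommRing R] [IsDomain R] (n : ℕ) (y v : Fin n → R) (Q : R[X])
    (hv : ∀ l, v l * ∏ j ∈ Finset.univ.erase l, (y l - y j) = 1) (hQ : Q.natDegree < n) :
    Q = ∑ l, C (Q.eval (y l) * v l) * ∏ j ∈ Finset.univ.erase l, (X - C (y j)) := by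
  classical
  have hne : ∀ l, ∏ j ∈ Finset.univ.erase l, (y l - y j) ≠ 0 := by
    intro l h
    have := hv l
    rw [h, mul_zero] at this
    exact zero_ne_one this
  have hinj : Function.Injective y := by
    intro a b hab
    by_contra hne'
    apply hne a
    apply Finset.prod_eq_zero (Finset.mem_erase.2 ⟨Ne.symm hne', Finset.mem_univ b⟩)
    rw [hab, sub_self]
  set N : Fin n → R[X] := fun l => ∏ j ∈ Finset.univ.erase l, (X - C (y j)) with hN
  have hNd : ∀ l, (N l).natDegree = n - 1 := by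
    intro l
    rw [hN]
    simp only
    rw [natDegree_prod_of_monic _ _ fun j _ => monic_X_sub_C _]
    simp [Finset.card_erase_of_mem]
  set P : R[X] := ∑ l, C (Q.eval (y l) * v l) * N l - Q with hP
  have hPd : P.natDegree < n := by
    have h1 : (∑ l, C (Q.eval (y l) * v l) * N l).natDegree ≤ n - 1 := by
      apply natDegree_sum_le_of_forall_le
      intro l _
      exact (natDegree_C_mul_le _ _).trans (hNd l).le
    have h2 : P.natDegree ≤ n - 1 := (natDegree_sub_le _ _).trans (max_le h1 (by omega))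
    omega
  have hP0 : P = 0 := by
    apply eq_zero_of_natDegree_lt_card_of_eval_eq_zero P hinj
    · intro i
      rw [hP, eval_sub, eval_finsetSum, Finset.sum_eq_single i]
      · rw [eval_mul, eval_C, hN]
        simp only
        rw [eval_prod]
        simp only [eval_sub, eval_X, eval_C]
        rw [mul_assoc, hv i, mul_one, sub_self]
      · intro l _ hl
        rw [eval_mul, hN]
        simp only
        rw [eval_prod, Finset.prod_eq_zero (Finset.mem_erase.2 ⟨Ne.symm hl, Finset.mem_univ i⟩),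
          mul_zero]
        simp
      · intro h
        exact absurd (Finset.mem_univ i) h
    · rw [Fintype.card_fin]
      exact hPd
  exact (sub_eq_zero.1 hP0).symm

theorem t_LAGB : S_LAGB := by
  classical
  intro R _ _ n y v w' ρ F hv hw hF
  have h1 := congrArg (fun p : R[X] => p.eval ρ) (interp n y v F hv hF)
  simp only [eval_finsetSum, eval_mul, eval_C, eval_prod, eval_sub, eval_X] at h1
  rw [h1, Finset.sum_mul, ← Finset.sum_neg_distrib]
  refine Finset.sum_congr rfl fun l _ => ?_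
  rw [← Finset.mul_prod_erase Finset.univ (fun l => ρ - y l) (Finset.mem_univ l)]
  linear_combination (-(F.eval (y l) * v l * ∏ j ∈ Finset.univ.erase l, (ρ - y j))) * hw l

theorem t_LAGC : S_LAGC := by
  classical
  intro R _ _ d z v r hv hd hr
  have h1 := congrArg (fun p : R[X] => p.coeff (d - 1)) (interp d z v r hv (by omega))
  simp only [finsetSum_coeff, coeff_C_mul] at h1
  rw [h1]
  refine Finset.sum_congr rfl fun l _ => ?_
  have hm : (∏ j ∈ Finset.univ.erase l, (X - C (z j))).Monic :=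
    monic_prod_of_monic _ _ fun j _ => monic_X_sub_C _
  have hdeg : (∏ j ∈ Finset.univ.erase l, (X - C (z j))).natDegree = d - 1 := by
    rw [natDegree_prod_of_monic _ _ fun j _ => monic_X_sub_C _]
    simp [Finset.card_erase_of_mem]
  have h2 : (∏ j ∈ Finset.univ.erase l, (X - C (z j))).coeff (d - 1) = 1 := by
    rw [← hdeg]
    exact hm
  rw [h2, mul_one]

/-- the first terms of the product -/
theorem prod_key {R : Type} [CommRing R] (n : ℕ) (ψ : Fin n → R) :
    ∃ z, (∏ l, (1 + 2 * ψ l)) = 1 + 2 * ∑ l, ψ l + 2 * ((∑ l, ψ l) ^ 2 - ∑ l, ψ l ^ 2) + 8 * z := by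
  classical
  have key : ∀ s : Finset (Fin n), ∃ E : R, 2 * E = (∑ l ∈ s, ψ l) ^ 2 - ∑ l ∈ s, ψ l ^ 2 ∧
      ∃ z, (∏ l ∈ s, (1 + 2 * ψ l)) = 1 + 2 * ∑ l ∈ s, ψ l + 4 * E + 8 * z := by
    intro s
    induction s using Finset.induction_on with
    | empty => exact ⟨0, by simp, 0, by simp⟩
    | insert a s ha ih =>
      obtain ⟨E, hE, z, hz⟩ := ih
      refine ⟨E + ψ a * ∑ l ∈ s, ψ l, ?_, (1 + 2 * ψ a) * z + ψ a * E, ?_⟩
      · rw [Finset.sum_insert ha, Finset.sum_insert ha]
        linear_combination hE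
      · rw [Finset.prod_insert ha, Finset.sum_insert ha, hz]
        ring
  obtain ⟨E, hE, z, hz⟩ := key Finset.univ
  exact ⟨z, by rw [hz, ← hE]; ring⟩

theorem t_NRMB : S_NRMB := by
  intro R _ _ _ n n' ψ ψ' h1 h2
  obtain ⟨z, hz⟩ := prod_key n ψ
  obtain ⟨z', hz'⟩ := prod_key n' ψ'
  obtain ⟨a, ha⟩ := h1
  obtain ⟨b, hb⟩ := h2
  refine ⟨2 * a + 2 * (a * (∑ l, ψ l + ∑ l, ψ' l) - b) + z - z', ?_⟩
  rw [hz, hz']
  linear_combination (2 + 2 * (∑ l, ψ l + ∑ l, ψ' l)) * ha - 2 * hb

end Pool.Agent.L7h97.TP
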